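import Pool.Agent.Lib.MP_4354a3_al.Weyl

/-!
# Reduced group rings and twisted Demazure operators
-/

set_option linter.unusedSectionVars false

namespace Pool.Agent.Lib.MP_4354a3_al

open Function

section red

variable {G : Type*} [AddCommGroup G]

lemma ev_ind (x : G) [DecidablePred fun y => y = x] (f : GA G) :
    ev (fun y => if y = x then (1 : ℤ) else 0) f = f.coeff x := by
  induction f using induction_ex with
  | h0 => simp
  | h1 y =>
    rw [ev_ex, ex, AddMonoidAlgebra.coeff_single, Finsupp.single_apply]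
  | ha f g hf hg => simp [hf, hg]
  | hn f hf => simp [hf]

lemma eq_zero_of_mul_star {f : GA G} (h : f * mp (AddEquiv.neg G).toAddMonoidHom f = 0) :
    f = 0 := by
  classical
  have h1 := ev_mul (fun y : G => if y = 0 then (1 : ℤ) else 0)
    (mp (AddEquiv.neg G).toAddMonoidHom f) f
  have h2 : ∀ x, ev (fun y : G => if y = 0 then (1 : ℤ) else 0)
      (ex x * mp (AddEquiv.neg G).toAddMonoidHom f) = f.coeff x := by
    intro x
    rw [ev_ind, coeff_ex_mul, zero_sub]
    exact coeff_mp (f := (AddEquiv.neg G).toAddMonoidHom) neg_injective f x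
  simp only [h2] at h1
  rw [h, map_zero, ev_apply, Finsupp.sum, eq_comm] at h1
  simp only [smul_eq_mul] at h1
  rw [Finset.sum_eq_zero_iff_of_nonneg (fun x _ => mul_self_nonneg _)] at h1
  ext x
  by_contra hx
  exact hx (mul_self_eq_zero.1 (h1 x (Finsupp.mem_support_iff.2 hx)))

lemma eq_zero_of_sq {f : GA G} (h : f * f = 0) : f = 0 := by
  refine eq_zero_of_mul_star (eq_zero_of_mul_star ?_)
  rw [map_mul]
  linear_combination
    (mp (AddEquiv.neg G).toAddMonoidHom f * mp (AddEquiv.neg G).toAddMonoidHom f) * h +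
    (f * mp (AddEquiv.neg G).toAddMonoidHom f * mp (AddEquiv.neg G).toAddMonoidHom f) *
      ((mp_mp (AddEquiv.neg G).toAddMonoidHom (AddEquiv.neg G).toAddMonoidHom f).trans
        (mp_eq_self (fun x => neg_neg x) f))

/-- Integral group rings of abelian groups are reduced. -/
lemma eq_zero_of_pow {f : GA G} (n : ℕ) (h : f ^ (n + 1) = 0) : f = 0 := by
  induction n with
  | zero => simpa using h
  | succ n ih =>
    refine ih (eq_zero_of_sq ?_)
    rw [← pow_add, show n + 1 + (n + 1) = n + 1 + 1 + n by ring, pow_add, h, zero_mul]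

lemma eq_zero_of_pow_mul {b f : GA G} (n : ℕ) (h : b ^ n * f = 0) : b * f = 0 := by
  refine eq_zero_of_pow n ?_
  rw [mul_pow, pow_succ', pow_succ']
  linear_combination (b * f ^ n) * h

end red

namespace Sys

variable {E R I : Type*} [AddCommGroup E] {S : Sys E R I} {N : ℤ}

variable (S N) in
/-- The weights reached from `x` by a twisted Demazure operator. -/
def Reach (i : I) (u : ℤ) (x y : E) : Prop :=
  ∃ j : ℤ, y = x - (u + N * j) • S.a i ∧
    ((0 ≤ j ∧ N * j ≤ S.c i x - u) ∨ (j < 0 ∧ S.c i x - u < N * j))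

lemma dem_ex (hN : 0 < N) (i : I) (u : ℤ) {x : E} (hx : N ∣ S.c i x - u) :
    ∃ G : GA E, (1 - ex (-(N • S.a i))) * G =
      ex (-(u • S.a i)) * ex x - ex (-(N • S.a i)) * ex (S.si i x) ∧ Supp G (S.Reach N i u x) := by
  obtain ⟨m, hm⟩ := hx
  have hs : S.si i x = x - (u + N * m) • S.a i := by
    rw [S.s_apply, ← hm]; congr 2; ring
  rcases le_or_gt 0 (m + 1) with h | h
  · obtain ⟨p, hp⟩ := Int.eq_ofNat_of_zero_le h
    refine ⟨∑ j ∈ Finset.range p, ex (x - (u + N * j) • S.a i), ?_, Supp.sum _ fun j hj =>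
      supp_ex ⟨j, rfl, Or.inl ⟨by positivity, ?_⟩⟩⟩
    · have h1 := Finset.sum_range_sub' (fun j : ℕ => ex (x - (u + N * j) • S.a i)) p
      rw [Finset.mul_sum, ← ex_add, ← ex_add, hs]
      refine Eq.trans (Finset.sum_congr rfl fun j _ => ?_) (h1.trans ?_)
      · rw [sub_mul, one_mul, ← ex_add]
        exact congrArg _ (congrArg ex (by push_cast; module))
      · rw [← hp]
        exact congrArg₂ _ (congrArg ex (by push_cast; module)) (congrArg ex (by module))
    · have h1 : (j : ℤ) < p := by exact_mod_cast Finset.mem_range.1 hj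
      rw [hm]
      exact mul_le_mul_of_nonneg_left (by omega) hN.le
  · obtain ⟨p, hp⟩ := Int.eq_ofNat_of_zero_le (show 0 ≤ -(m + 1) by omega)
    refine ⟨-∑ j ∈ Finset.range p, ex (x - (u + N * (-(j + 1))) • S.a i), ?_,
      (Supp.sum _ fun j hj => supp_ex ⟨-(j + 1), rfl, Or.inr ⟨by omega, ?_⟩⟩).neg⟩
    · have h1 := Finset.sum_range_sub' (fun j : ℕ => ex (x - (u + N * (-j)) • S.a i)) p
      rw [mul_neg, Finset.mul_sum, ← Finset.sum_neg_distrib, ← ex_add, ← ex_add, hs]
      refine Eq.trans (Finset.sum_congr rfl fun j _ => ?_) (h1.trans ?_)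
      · rw [sub_mul, one_mul, ← ex_add, neg_sub]
        exact congrArg₂ _ (congrArg ex (by module)) (congrArg ex (by push_cast; module))
      · rw [← hp]
        exact congrArg₂ _ (congrArg ex (by push_cast; module)) (congrArg ex (by module))
    · have h1 : (j : ℤ) < p := by exact_mod_cast Finset.mem_range.1 hj
      rw [hm]
      exact mul_lt_mul_of_pos_left (by omega) hN

/-- The twisted Demazure operator. -/
lemma dem (hN : 0 < N) (i : I) (u : ℤ) {H : GA E} (hH : Supp H fun x => N ∣ S.c i x - u) :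
    ∃ G : GA E, (1 - ex (-(N • S.a i))) * G =
      ex (-(u • S.a i)) * H - ex (-(N • S.a i)) * S.ms (S.simp i) H ∧
      ∀ p q : E → Prop, Supp H p → (∀ x y, p x → S.Reach N i u x y → q y) → Supp G q := by
  choose! γ h1 h2 using fun x (hx : N ∣ S.c i x - u) => dem_ex hN i u hx
  refine ⟨ev γ H, ?_, fun p q hp hq =>
    Supp.ev ((hH.and hp).mono fun x hx => (h2 x hx.1).mono fun y hy => hq x y hx.2 hy)⟩
  have h3 := map_ev γ (AddMonoidHom.mulLeft (1 - ex (-(N • S.a i)))) H
  have h4 := map_ev ex (AddMonoidHom.mulLeft (ex (-(u • S.a i))) -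
    (AddMonoidHom.mulLeft (ex (-(N • S.a i)))).comp (S.ms (S.simp i)).toAddMonoidHom) H
  rw [ev_ex_self] at h4
  refine h3.trans (Eq.trans (Supp.ev_congr (hH.mono fun x hx => ?_)) h4.symm)
  simpa using h1 x hx

/-- The path generating functions are related by twisted Demazure operators. -/
lemma g_dem (hN : 0 < N) (i : I) (M : ℕ) {ζ : E} {u : ℤ} (hζ : 0 < S.lev ζ) (hc : 0 ≤ S.c i ζ)
    (hv : S.Valid N (S.si i ζ)) (hu : 0 ≤ u) (hu' : u < N) (hd : N ∣ M * S.c i ζ - u) :
    (1 - ex (-(N • S.a i))) * S.g N M (S.si i ζ) =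
      ex (-(u • S.a i)) * S.g N M ζ - ex (-(N • S.a i)) * S.ms (S.simp i) (S.g N M ζ) := by
  obtain ⟨h1, h2⟩ := key hN i M ζ u hζ hc hv hu hu' hd
  unfold Sym at h1 h2
  have e1 : S.ms (S.simp i) (ex (u • S.a i)) = ex ((-u) • S.a i) := by
    rw [ms_ex, map_zsmul, s_root, smul_neg, neg_smul]
  have e2 : ex (-(u • S.a i)) * ex ((u - N) • S.a i) = ex (-(N • S.a i)) := by
    rw [← ex_add]; exact congrArg ex (by module)
  have e3 : ex (-(u • S.a i)) * ex (u • S.a i) = 1 := by
    rw [mul_comm, ex_mul_neg]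
  rw [map_sub, map_mul, e1, h1] at h2
  linear_combination ex (-(u • S.a i)) * h2 -
    (S.ms (S.simp i) (S.g N M ζ) - S.g N M (S.si i ζ)) * e2 - S.g N M (S.si i ζ) * e3

lemma Desc.sign {V : Type*} [AddCommGroup V] {J : E → V} (hJ : S.Alt J) {z : E} {w : E ≃+ E}
    (h : S.Desc z w) (hz : 0 < S.lev z) (x : E) : J (w x) = (-1 : ℤ) ^ S.L z • J x := by
  induction h generalizing x with
  | refl z h => simp [S.L_eq_zero_of_dom h]
  | step z i w hi _ ih =>
    rw [AddEquiv.trans_apply, ih (by rwa [lev_s]), hJ, S.L_si_neg hz hi, pow_succ]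
    simp

end Sys

end Pool.Agent.Lib.MP_4354a3_al
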