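import Pool.Agent.Lib.MP_4354a3_al.PE.Dem

/-!
# Continuation of the path generating functions to arbitrary integer times
-/

set_option linter.unusedSectionVars false

namespace Pool.Agent.Lib.MP_4354a3_al

open Set Function

namespace SimpleDatum

variable {ι M N : Type*} [Fintype ι] [DecidableEq ι] [AddCommGroup M] [AddCommGroup N]
  (D : SimpleDatum ι M N)

/-- The lattice of translations at level `ℓ`. -/
def Lat (ℓ : ℤ) : AddSubgroup (M × ℤ) :=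
  AddSubgroup.closure (range fun α => ((ℓ • (D.t α : ℤ) • D.r α, 0) : M × ℤ))

/-- The ideal of the translations at level `ℓ`. -/
noncomputable def Id (ℓ : ℤ) : Ideal (GA (M × ℤ)) :=
  RingHom.ker (mp (QuotientAddGroup.mk' (D.Lat ℓ)))

variable {D} {ℓ : ℤ}

lemma Lat_s (β : D.AR) {z : M × ℤ} (hz : z ∈ D.Lat ℓ) : D.S.s β z ∈ D.Lat ℓ := by
  induction hz using AddSubgroup.closure_induction with
  | mem x hx =>
    obtain ⟨α, rfl⟩ := hx
    refine AddSubgroup.subset_closure ⟨D.pm β.1.1 α, ?_⟩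
    simp only [S_s_zero, map_zsmul, t_pm, r_pm]
  | zero => rw [map_zero]; exact zero_mem _
  | add x y _ _ hx hy => rw [map_add]; exact add_mem hx hy
  | neg x _ hx => rw [map_neg]; exact neg_mem hx

lemma Id_ms (β : D.AR) {f : GA (M × ℤ)} (hf : f ∈ D.Id ℓ) : D.S.ms β f ∈ D.Id ℓ := by
  have h := congrArg (mp (QuotientAddGroup.map (D.Lat ℓ) (D.Lat ℓ) (D.S.s β).toAddMonoidHom
    (fun z hz => Lat_s β hz))) (RingHom.mem_ker.1 hf)
  rw [map_zero, mp_mp] at h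
  rw [Id, RingHom.mem_ker, Sys.ms, mp_mp, ← h]
  exact mp_congr (fun _ => rfl) f

lemma ex_sub_mem {x y : M × ℤ} (h : x - y ∈ D.Lat ℓ) : ex x - ex y ∈ D.Id ℓ := by
  rw [Id, RingHom.mem_ker, map_sub, mp_ex, mp_ex, sub_eq_zero]
  exact congrArg ex (QuotientAddGroup.eq_iff_sub_mem.2 h)

lemma Lat_form {z : M × ℤ} (hz : z ∈ D.Lat ℓ) : ∃ v, z = (ℓ • v, 0) := by
  induction hz using AddSubgroup.closure_induction with
  | mem x hx => obtain ⟨α, rfl⟩ := hx; exact ⟨_, rfl⟩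
  | zero => exact ⟨0, by rw [smul_zero]; rfl⟩
  | add x y _ _ hx hy =>
    obtain ⟨v, rfl⟩ := hx
    obtain ⟨w, rfl⟩ := hy
    exact ⟨v + w, by simp⟩
  | neg x _ hx => obtain ⟨v, rfl⟩ := hx; exact ⟨-v, by simp⟩

lemma Lat_per {V : Type*} [AddCommGroup V] {J : M × ℤ → V} (hJ : D.S.Alt J) {z : M × ℤ}
    (hz : z ∈ D.Lat ℓ) : ∀ x : M, J (x + z.1, ℓ) = J (x, ℓ) := by
  induction hz using AddSubgroup.closure_induction with
  | mem y hy =>
    obtain ⟨α, rfl⟩ := hy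
    intro x
    obtain ⟨β, β', h⟩ := D.ex_tr α
    have h2 := h (x, ℓ)
    simp only at h2 ⊢
    rw [← h2, hJ, hJ, neg_neg]
  | zero => simp
  | add y z _ _ hy hz => intro x; rw [Prod.fst_add, ← add_assoc, hz, hy]
  | neg y _ hy => intro x; rw [← hy, Prod.fst_neg, neg_add_cancel_right]

lemma ev_Id {V : Type*} [AddCommGroup V] {J : M × ℤ → V} (hJ : D.S.Alt J) {f : GA (M × ℤ)}
    (hf : f ∈ D.Id ℓ) : ev (fun x => J (x, ℓ)) (pr f) = 0 := by
  have h := congrArg (ev fun c : (M × ℤ) ⧸ D.Lat ℓ => J ((Quotient.out c).1, ℓ))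
    (RingHom.mem_ker.1 hf)
  rw [map_zero, ev_mp] at h
  rw [ev_mp, ← h]
  refine congrArg (fun K => ev K f) (funext fun z => ?_)
  obtain ⟨y, hy⟩ := QuotientAddGroup.mk_out_eq_add (D.Lat ℓ) z
  rw [QuotientAddGroup.mk'_apply, hy, Prod.fst_add, Lat_per hJ y.2]
  rfl

lemma eq_zero_of_Id {f : GA (M × ℤ)} (hf : f ∈ D.Id ℓ)
    (h : ∀ x y, f.coeff x ≠ 0 → f.coeff y ≠ 0 → x - y ∈ D.Lat ℓ → x = y) : f = 0 := by
  classical
  refine Supp.eq_zero fun x hx => hx ?_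
  have h1 := congrArg (ev fun c : (M × ℤ) ⧸ D.Lat ℓ =>
    if c = QuotientAddGroup.mk' (D.Lat ℓ) x then (1 : ℤ) else 0) (RingHom.mem_ker.1 hf)
  rw [map_zero, ev_mp] at h1
  refine (ev_ind x f).symm.trans (Eq.trans ?_ h1)
  refine Supp.ev_congr fun y hy => if_congr ⟨fun e => by rw [e], fun e => ?_⟩ rfl rfl
  exact h y x hy hx (QuotientAddGroup.eq_iff_sub_mem.1 e)

lemma eq_zero_of_Id_zero {f : GA (M × ℤ)} (hf : f ∈ D.Id 0) : f = 0 :=
  eq_zero_of_Id hf fun x y _ _ h => by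
    obtain ⟨v, hv⟩ := Lat_form h
    exact sub_eq_zero.1 (hv.trans (by rw [zero_smul]; rfl))

lemma eq_zero_of_Id_large {n : ℕ} (hn : 0 < n) {f : GA (M × ℤ)} (K : ℕ)
    (hf : ∀ l : ℕ, K ≤ l → f ∈ D.Id (n * l)) : f = 0 := by
  classical
  set C : ℤ := ∑ x ∈ f.coeff.support, ∑ α, |D.cv α x.1| with hC
  have h1 : ∀ x, f.coeff x ≠ 0 → ∀ α, |D.cv α x.1| ≤ C := fun x hx α =>
    (Finset.single_le_sum (f := fun α => |D.cv α x.1|) (fun _ _ => abs_nonneg _)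
      (Finset.mem_univ α)).trans (Finset.single_le_sum (f := fun x : M × ℤ => ∑ α, |D.cv α x.1|)
        (fun _ _ => Finset.sum_nonneg fun _ _ => abs_nonneg _) (Finsupp.mem_support_iff.2 hx))
  refine eq_zero_of_Id (hf (K + (2 * C).toNat + 1) (by omega)) fun x y hx hy h => ?_
  obtain ⟨v, hv⟩ := Lat_form h
  have h2 : v = 0 := D.sep fun α => by
    have h3 := congrArg (fun z : M × ℤ => D.cv α z.1) hv
    simp only [Prod.fst_sub, map_sub, map_zsmul, smul_eq_mul] at h3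
    have h4 := abs_le.1 (h1 x hx α)
    have h5 := abs_le.1 (h1 y hy α)
    have h6 : 2 * C < (n : ℤ) * ((K + (2 * C).toNat + 1 : ℕ) : ℤ) := by
      have : ((K + (2 * C).toNat + 1 : ℕ) : ℤ) ≤ (n : ℤ) * ((K + (2 * C).toNat + 1 : ℕ) : ℤ) :=
        le_mul_of_one_le_left (by positivity) (by exact_mod_cast hn)
      omega
    generalize (n : ℤ) * ((K + (2 * C).toNat + 1 : ℕ) : ℤ) = L at h3 h6
    by_contra h7
    rcases lt_or_gt_of_ne h7 with h7 | h7 <;> nlinarith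
  exact sub_eq_zero.1 (hv.trans (by rw [h2, smul_zero]; rfl))

lemma Id_reduced {b f : GA (M × ℤ)} (L : ℕ) (h : b ^ L * f ∈ D.Id ℓ) : b * f ∈ D.Id ℓ := by
  rw [Id, RingHom.mem_ker, map_mul] at h ⊢
  rw [map_pow] at h
  exact eq_zero_of_pow_mul L h

variable (D)

lemma mp_sr_alt (α : ι) (x : M) :
    mp (D.sr α).toAddEquiv.toAddMonoidHom (D.alt x) = - D.alt x := by
  rw [alt_eq, map_sum, ← Finset.sum_neg_distrib]
  refine Fintype.sum_equiv (Equiv.mulLeft ⟨D.sr α, D.sr_mem α⟩) _ _ fun v => ?_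
  simp [sgn_mul]

lemma ms_em (β : D.AR) (f : GA M) :
    D.S.ms β (em f) = em (mp (D.sr β.1.1).toAddEquiv.toAddMonoidHom f) := by
  rw [Sys.ms, mp_mp, mp_mp]
  exact mp_congr (fun x => D.S_s_zero β x) f

/-- Twice the scaled Weyl denominator. -/
noncomputable def Bq (n : ℕ) : GA (M × ℤ) :=
  em (D.alt ((n : ℤ) • D.rho)) + em (D.alt ((n : ℤ) • D.rho))

lemma ms_Bq (n : ℕ) (β : D.AR) : D.S.ms β (D.Bq n) = - D.Bq n := by
  rw [Bq, map_add, ms_em, mp_sr_alt, map_neg, neg_add]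

lemma Bq_dvd {n : ℕ} (hn : 0 < n) (i : Option D.b.support) :
    ∃ C, D.Bq n = C * (1 - ex (-((n : ℤ) • D.S.a i))) := by
  have h1 : Supp (em (D.alt ((n : ℤ) • D.rho))) fun x => (n : ℤ) ∣ D.S.c i x - 0 := by
    refine Supp.mp (p := fun x => ∃ u, x = (n : ℤ) • u) ?_ _ ?_
    · rw [alt_eq]
      exact Supp.sum _ fun v _ => (supp_ex ⟨_, map_zsmul _ _ _⟩).zsmul _
    · rintro _ ⟨u, rfl⟩
      rw [sub_zero, map_zsmul, map_zsmul]
      exact dvd_mul_right _ _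
  obtain ⟨G, hG, -⟩ := Sys.dem (S := D.S) (N := n) (by exact_mod_cast hn) i 0 h1
  rw [ms_em, mp_sr_alt, map_neg, zero_smul, neg_zero, ex_zero] at hG
  exact ⟨G + em (D.alt ((n : ℤ) • D.rho)), by rw [Bq]; linear_combination -hG⟩

lemma Bq_cancel {n : ℕ} (hn : 0 < n) (L : ℕ) {f : GA (M × ℤ)} (h : D.Bq n ^ L * f = 0) :
    f = 0 := by
  have : TwoUniqueSums M :=
    TwoUniqueSums.of_injective_addHom D.basis.repr.toAddEquiv.toAddHom D.basis.repr.injective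
      inferInstance
  refine (mul_eq_zero.1 h).resolve_left (pow_ne_zero _ fun e => ?_)
  have h1 : em (D.alt ((n : ℤ) • D.rho)) = 0 := two_cancel (by rw [add_zero]; exact e)
  refine alt_ne_zero (D := D) (x := (n : ℤ) • D.rho) (fun j => by simpa using hn) ?_
  exact mp_injective (f := AddMonoidHom.inl M ℤ) (fun x y e => congrArg Prod.fst e)
    (h1.trans (map_zero _).symm)

/-- Squared distance, scaled by `h`, from the multiple of the affine Weyl vector of level `T`. -/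
noncomputable def ds (T : ℤ) (x : M × ℤ) : ℤ :=
  D.B (D.hv • x.1 - T • D.rho) (D.hv • x.1 - T • D.rho)

variable {D}

lemma ds_reach {n T u : ℤ} (hn : 0 < n) (h1 : -(n * D.hv) < T) (h2 : T < 0) (hu : 0 ≤ u)
    (hu' : u < n) {i : Option D.b.support} {x y : M × ℤ} (hx : x.2 = T)
    (hd : n ∣ D.S.c i x - u) (h : D.S.Reach n i u x y) :
    D.ds T y ≤ D.ds T x ∧ (D.S.c i x < 0 → D.ds T y < D.ds T x) := by
  obtain ⟨j, rfl, hj⟩ := h
  obtain ⟨m, hm⟩ := hd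
  set α := (D.S.simp i).1.1 with hα
  set z := D.hv • x.1 - T • D.rho with hz
  set c := u + n * j with hc
  have hh := D.hv_pos
  have e1 : D.hv • (x - c • D.S.a i).1 - T • D.rho = z - (D.hv * c) • D.r α := by
    rw [Prod.fst_sub, Prod.smul_fst, Sys.a, S_root, hz]; module
  have e2 : D.cv α z = D.hv * D.S.c i x - T := by
    have h3 := D.S.co_rho i
    rw [S_co, S_rho] at h3
    rw [hz, map_sub, map_zsmul, map_zsmul, S_co, hx]
    simp only [smul_eq_mul] at h3 ⊢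
    linear_combination (-T) * h3
  have e3 := D.B_root α z
  have e4 := D.B_comm z (D.r α)
  have e5 := D.B_root_pos α
  have e6 : D.ds T (x - c • D.S.a i) = D.ds T x +
      D.hv * D.B (D.r α) (D.r α) * (c * (D.hv * (c - D.S.c i x) + T)) := by
    rw [ds, e1, ds, ← hz]
    rw [e2] at e3
    simp only [B, map_sub, map_zsmul, LinearMap.sub_apply, LinearMap.smul_apply, smul_eq_mul]
      at e3 e4 ⊢
    linear_combination (D.hv * c) * e3 - (D.hv * c) * e4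
  have e7 : 0 < D.hv * D.B (D.r α) (D.r α) := mul_pos hh e5
  rw [e6]
  rcases hj with ⟨h3, h4⟩ | ⟨h3, h4⟩
  · have h5 : 0 ≤ c := by rw [hc]; positivity
    have h6 : D.hv * (c - D.S.c i x) ≤ 0 := mul_nonpos_of_nonneg_of_nonpos hh.le (by omega)
    have h7 := mul_nonpos_of_nonneg_of_nonpos e7.le
      (mul_nonpos_of_nonneg_of_nonpos h5 (show D.hv * (c - D.S.c i x) + T ≤ 0 by omega))
    exact ⟨by omega, fun h8 => by omega⟩
  · have h5 : n * j ≤ n * (-1) := mul_le_mul_of_nonneg_left (by omega) hn.le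
    have h6 : m < j := lt_of_mul_lt_mul_left (hm ▸ h4) hn.le
    have h7 : n * (m + 1) ≤ n * j := mul_le_mul_of_nonneg_left (by omega) hn.le
    have h8 : D.hv * n ≤ D.hv * (c - D.S.c i x) :=
      mul_le_mul_of_nonneg_left (by linarith) hh.le
    have h9 := mul_neg_of_pos_of_neg e7 (mul_neg_of_neg_of_pos (show c < 0 by omega)
      (show 0 < D.hv * (c - D.S.c i x) + T by linarith))
    exact ⟨by omega, fun _ => by omega⟩

variable (D) in
/-- `G` continues the path generating function with direction `κ` to the time `T`. -/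
structure Ext (n : ℕ) (T : ℤ) (κ : M × ℤ) (G : GA (M × ℤ)) : Prop where
  supp : Supp G fun y => ∃ z : M, y = T • κ + (n : ℤ) • (z, 0)
  cong : ∃ L, ∀ l τ : ℕ, (τ : ℤ) = T + n * l →
    D.Bq n ^ L * (D.S.g n τ κ - ex (((n : ℤ) * l) • κ) * G) ∈ D.Id (n * l)
  near : (D.S.Dom κ ∧ G = ex (T • κ)) ∨ (-(n * D.hv) < T → T < 0 → ∀ r,
    (∀ Λ, D.S.Orb κ Λ → D.S.Dom Λ → D.ds T (T • Λ) ≤ r) → Supp G fun y => D.ds T y < r)

lemma si_sub_mem {κ : M × ℤ} (h1 : κ.2 = 1) (h2 : D.Cow κ.1) (i : Option D.b.support) (ℓ : ℤ) :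
    ℓ • κ - ℓ • D.S.si i κ ∈ D.Lat ℓ := by
  obtain ⟨e, he⟩ := h2 (D.S.simp i).1.1
  have h3 : ℓ • κ - ℓ • D.S.si i κ = (e + (D.S.simp i).1.2) •
      ((ℓ • (D.t (D.S.simp i).1.1 : ℤ) • D.r (D.S.simp i).1.1, 0) : M × ℤ) := by
    rw [S_s, S_co, he, h1]
    ext
    · simp only [Prod.fst_sub, Prod.smul_fst]; module
    · simp [h1]
  rw [h3]
  exact zsmul_mem (AddSubgroup.subset_closure (mem_range_self (D.S.simp i).1.1)) _

theorem ext_ex {n : ℕ} (hn : 0 < n) (T : ℤ) {κ : M × ℤ} (h1 : κ.2 = 1) (h2 : D.Cow κ.1)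
    (h3 : D.S.Valid n κ) : ∃ G, D.Ext n T κ G := by
  have hn' : (0 : ℤ) < n := by exact_mod_cast hn
  refine D.S.desc_induction (p := fun κ => κ.2 = 1 → D.Cow κ.1 → D.S.Valid n κ →
    ∃ G, D.Ext n T κ G) (fun κ h0 hd _ _ _ => ?_) (fun κ i h0 hi ih h1 h2 h3 => ?_)
    (by rw [S_lev, h1]; exact one_pos) h1 h2 h3
  · refine ⟨ex (T • κ), supp_ex ⟨0, by simp⟩, ⟨0, fun l τ hτ => ?_⟩, Or.inl ⟨hd, rfl⟩⟩
    rw [Sys.g_dom h0 hd, ← ex_add, ← add_smul, add_comm, ← hτ, natCast_zsmul, sub_self, mul_zero]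
    exact zero_mem _
  have hch : D.S.Ch n 0 κ (D.S.si i κ) := Sys.ch_simple h0 hi.le (by simp)
  have hκ : κ = (κ.1, 1) := Prod.ext rfl h1
  obtain ⟨k1, k2, -⟩ := D.ch_one h2 (hκ ▸ hch)
  rw [← hκ] at k1 k2
  obtain ⟨H, s1, ⟨L, s2⟩, s3⟩ := ih k1 k2 (h3.ch hch)
  have hκ' : κ = D.S.si i (D.S.si i κ) := (D.S.s_s _ _).symm
  have hc : 0 < D.S.c i (D.S.si i κ) := by rw [Sys.co_s]; exact neg_pos.2 hi
  generalize D.S.si i κ = ζ at k1 k2 s1 s2 s3 hκ' hc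
  subst hκ'
  set u := T * D.S.c i ζ % n with hu
  have u0 : 0 ≤ u := Int.emod_nonneg _ hn'.ne'
  have u1 : u < n := Int.emod_lt_of_pos _ hn'
  obtain ⟨e, he⟩ : (n : ℤ) ∣ T * D.S.c i ζ - u := Int.dvd_self_sub_of_emod_eq rfl
  have s4 : Supp H fun x => x.2 = T ∧ (n : ℤ) ∣ D.S.c i x - u := s1.mono (by
    rintro _ ⟨z, rfl⟩
    refine ⟨by simp [k1], e + D.S.c i (z, 0), ?_⟩
    rw [map_add, map_zsmul, map_zsmul, smul_eq_mul, smul_eq_mul]
    linear_combination he)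
  obtain ⟨G, g1, g2⟩ := Sys.dem hn' i u (s4.mono fun _ h => h.2)
  refine ⟨G, g2 _ _ s1 ?_, ⟨L + 1, fun l τ hτ => ?_⟩, Or.inr fun t1 t2 r hr => ?_⟩
  · rintro _ _ ⟨z, rfl⟩ ⟨j, rfl, -⟩
    refine ⟨z + (e - j) • D.r (D.S.simp i).1.1, ?_⟩
    have : ((z + (e - j) • D.r (D.S.simp i).1.1, 0) : M × ℤ) = (z, 0) + (e - j) • D.S.a i := by
      rw [Sys.a, S_root]; simp
    rw [this, D.S.s_apply, show u = T * D.S.c i ζ - n * e by omega]
    module
  · obtain ⟨C, hC⟩ := D.Bq_dvd hn i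
    have a1 := Sys.g_dem hn' i τ (ζ := ζ) (by rw [S_lev, k1]; exact one_pos) hc.le h3 u0 u1
      ⟨e + l * D.S.c i ζ, by rw [hτ]; linear_combination he⟩
    have a2 := s2 l τ hτ
    have a3 := Id_ms (D.S.simp i) a2
    rw [map_mul, map_pow, ms_Bq, map_sub, map_mul, Sys.ms_ex, map_zsmul, neg_pow] at a3
    have a4 := ex_sub_mem (si_sub_mem k1 k2 i ((n : ℤ) * l))
    have a5 := sub_mem (add_mem (Ideal.mul_mem_left _ (C * ex (-(u • D.S.a i))) a2)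
      (Ideal.mul_mem_left _ (C * ex (-(u • D.S.a i)) * D.Bq n ^ L * H) a4))
      (Ideal.mul_mem_left _ (C * ex (-((n : ℤ) • D.S.a i)) * (-1) ^ L) a3)
    have a6 : ((-1 : GA (M × ℤ)) ^ L) * (-1) ^ L = 1 := by rw [← mul_pow]; simp
    refine (congrArg (· ∈ D.Id (n * l)) ?_).mpr a5
    rw [pow_succ]
    linear_combination
      (D.Bq n ^ L * (D.S.g n τ (D.S.si i ζ) - ex (((n : ℤ) * l) • D.S.si i ζ) * G)) * hC +
      (C * D.Bq n ^ L) * a1 - (C * D.Bq n ^ L * ex (((n : ℤ) * l) • D.S.si i ζ)) * g1 +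
      (C * ex (-((n : ℤ) • D.S.a i)) * D.Bq n ^ L * (D.S.ms (D.S.simp i) (D.S.g n τ ζ) -
        ex (((n : ℤ) * l) • D.S.si i ζ) * D.S.ms (D.S.simp i) H)) * a6
  · rcases s3 with ⟨hd, rfl⟩ | s3
    · refine g2 _ _ (s4.and (supp_ex (p := fun x => x = T • ζ) rfl)) ?_
      rintro _ y ⟨⟨x1, x2⟩, rfl⟩ hy
      refine ((ds_reach hn' t1 t2 u0 u1 x1 x2 hy).2 ?_).trans_le (hr ζ (Sys.orb_si' i ζ) hd)
      rw [map_zsmul]
      exact mul_neg_of_neg_of_pos t2 hc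
    · refine g2 _ _ (s4.and (s3 t1 t2 r fun Λ h4 => hr Λ ((Sys.orb_si' i ζ).trans h4))) ?_
      rintro x y ⟨⟨x1, x2⟩, x3⟩ hy
      exact (ds_reach hn' t1 t2 u0 u1 x1 x2 hy).1.trans_lt x3

end SimpleDatum

end Pool.Agent.Lib.MP_4354a3_al
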