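import Pool.Agent.Results.MP_4354a3_al.KRAllSizes

/-!
# The earlier statement follows from the statement for all sizes
-/

namespace Pool.Agent.Lib.MP_4354a3_al

/-- The statement of the retired hand-in `KRModules`, word for word. -/
theorem krModules {ι M N : Type*} [Fintype ι] [DecidableEq ι] [AddCommGroup M] [AddCommGroup N]
    (D : SimpleDatum ι M N) (q : ℂ) (hq0 : q ≠ 0) (hq : ∀ n : ℕ, 0 < n → q ^ n ≠ 1)
    (a : D.b.support) (m : ℕ) (p : ℤ) {V : Type*} [AddCommGroup V] [Module ℂ V] :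
    (∃ (n : ℕ) (x φ : ℤˣ → D.b.support → ℤ → Module.End ℂ (Fin n → ℂ)), D.IsKR q x φ a m p) ∧
    ∀ x φ : ℤˣ → D.b.support → ℤ → Module.End ℂ V, D.IsKR q x φ a m p →
      ∃ χ, D.IsChar q φ χ ∧ (∃! c, D.IsClass χ c) ∧ ∀ k : ℕ,
        (m ≤ D.t a * k → ∃ y, D.IsImage k χ y ∧ y ≠ 0 ∧ ∀ μ, 0 ≤ y μ) ∧
        (m = 0 ∨ m = D.t a * k → ∃ y, D.IsImage k χ y ∧ D.IsFusionUnit k y) ∧
        (m = D.t a * k + 1 → D.IsImage k χ 0) := by
  obtain ⟨h1, h2⟩ := Pool.Agent.Results.MP_4354a3_al.KRAllSizes.result D q hq0 hq a m p (V := V)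
  refine ⟨h1, fun x φ h => ?_⟩
  obtain ⟨χ, h3, h4, e, -, h5⟩ := h2 x φ h
  refine ⟨χ, h3, h4, fun k => ?_⟩
  obtain ⟨k1, k2, k3⟩ := h5 k 0 m (by simp)
  refine ⟨fun hm => by simpa using k1 hm, k2, fun hm => k3 (by omega) ?_⟩
  have h6 : 0 < D.cv D.θ D.rho := D.pos_θ
  have h7 := D.t_pos a
  rw [hm, D.hv_eq]
  push_cast
  nlinarith

end Pool.Agent.Lib.MP_4354a3_al
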