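import Pool.Agent.Lib.MP_4354a3_al.PE.Sign

/-!
# All Verlinde images of the family
-/

set_option linter.unusedSectionVars false

namespace Pool.Agent.Lib.MP_4354a3_al

open Set Function

namespace SimpleDatum

variable {ι M N : Type*} [Fintype ι] [DecidableEq ι] [AddCommGroup M] [AddCommGroup N]
  {D : SimpleDatum ι M N} {n : ℕ}

section images

variable {V : Type*} [AddCommGroup V] [IsAddTorsionFree V] {c : D.b.support → ℕ}

lemma Good.image_iter (h : D.Good n) (hc : 2 • D.rho = ∑ j, c j • D.P.root j) (a : D.b.support)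
    {r k : ℕ} (j : ℕ) : ∀ (m : ℕ) (J : M × ℤ → V), D.S.Alt J →
      (m : ℤ) = j * (D.t a * (k + D.hv)) + r →
      ev J (ex ((n : ℤ) • (D.rho, (k : ℤ) + D.hv)) * em (D.Qf n a m)) = (-1 : ℤ) ^ (c a * j) •
        ev J (ex ((n : ℤ) • (D.rho, (k : ℤ) + D.hv)) *
          em (D.Qf n a (D.t a * k) ^ j * D.Qf n a r)) := by
  induction j with
  | zero =>
    intro m J hJ hm
    obtain rfl : m = r := by simpa using hm
    simp
  | succ j ih =>
    intro m J hJ hm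
    obtain ⟨m', e1, e2⟩ := per_split a hm
    have h1 := ih m' _ (hJ.mul (h.winv_Qf a (D.t a * k)).inv) e1
    rw [← ev_mul, ← ev_mul, mul_assoc, mul_assoc, ← map_mul, ← map_mul, mul_comm (D.Qf n a m')]
      at h1
    rw [h.image_period hc hJ a e2, h1, smul_smul, ← pow_add, mul_add_one, add_comm (c a),
      pow_succ, mul_right_comm]

lemma Good.image_pow (h : D.Good n) (a : D.b.support) (k j : ℕ) : ∀ J : M × ℤ → V, D.S.Alt J →
    ∃ s, ev J (ex ((n : ℤ) • (D.rho, (k : ℤ) + D.hv)) * em (D.Qf n a (D.t a * k) ^ (j + s))) =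
      J ((n : ℤ) • (D.rho, (k : ℤ) + D.hv)) := by
  induction j with
  | zero => exact fun J _ => ⟨0, by simp⟩
  | succ j ih =>
    intro J hJ
    obtain ⟨r, hr⟩ := h.image_unit hJ a k
    obtain ⟨s, hs⟩ := ih _ (hJ.mul ((h.winv_Qf a (D.t a * k)).pow (r + 1)).inv)
    rw [← ev_mul, mul_assoc, ← map_mul, ← pow_add, hr] at hs
    exact ⟨s + r, by rw [← hs]; congr 4; ring⟩

end images

variable (D)

theorem main_unit {Q : D.b.support → ℕ → GA M} (hQ : D.IsKRFamily Q) (a : D.b.support)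
    {k j r m : ℕ} (hm : (m : ℤ) = j * (D.t a * (k + D.hv)) + r) (hr : r = 0 ∨ r = D.t a * k) :
    ∃ y, D.IsImage k (Q a m) y ∧ D.IsFusionUnit k y := by
  obtain ⟨n, h⟩ := D.exists_good
  obtain ⟨Q₀, h1, h2⟩ := h.exists_family
  obtain rfl := h2.unique hQ
  obtain ⟨J, hJ, -, hone, him⟩ := D.exists_J h.pos
  have hw : ∀ m, D.WInv (Q₀ a m) := fun m => WInv.of_sc h.pos.ne' (h1 a m ▸ h.winv_Qf a m)
  obtain ⟨c, hc⟩ := D.exists_c
  obtain ⟨i, hi⟩ : ∃ i, D.Qf n a (D.t a * k) ^ j * D.Qf n a r = D.Qf n a (D.t a * k) ^ i := by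
    rcases hr with rfl | rfl
    · exact ⟨j, by rw [Qf_zero, mul_one]⟩
    · exact ⟨j + 1, by rw [pow_succ]⟩
  obtain ⟨s, hs⟩ := h.image_pow a k i J hJ
  have hs1 : ∀ l, D.WInv ((-1 : ℤ) ^ (c a * j) • Q₀ a (D.t a * k) ^ l) := fun l α => by
    rw [map_zsmul, (hw _).pow l α]
  refine ⟨_, him k _ (hw m), io ((-1 : ℤ) ^ (c a * j) • Q₀ a (D.t a * k) ^ i), _, _, ?_,
    him k _ (hs1 s), ?_⟩
  · have h3 := him k _ (hs1 i)
    rwa [map_zsmul (sc n), map_pow (sc n), h1, map_zsmul em, mul_smul_comm, map_zsmul (ev J),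
      ← hi,
      ← h.image_iter hc a j m J hJ hm, ← h1] at h3
  · have h3 := him k _ ((hw (D.t a * k)).pow (i + s))
    rw [map_pow (sc n), h1, hs, hone] at h3
    rwa [← map_mul, smul_mul_smul_comm, ← mul_pow, neg_mul_neg, one_mul, one_pow, one_smul,
      ← pow_add]

theorem main_all {Q : D.b.support → ℕ → GA M} (hQ : D.IsKRFamily Q) (a : D.b.support) :
    ∃ (c : D.b.support → ℕ) (l : M), 2 • D.rho = ∑ j, c j • D.P.root j ∧ D.InAlcove 1 l ∧
      l - D.t a • D.ω a ∈ AddSubgroup.closure (range fun α => D.t α • D.P.root α) ∧ ∀ k : ℕ,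
      D.IsImage k (Q a (D.t a * k)) (Finsupp.single (k • l) 1) ∧
      (∀ m m', m + m' = D.t a * k → ∃ y, D.IsImage k (Q a m') y ∧
        D.IsImage k (Q a (D.t a * k) * (Q a m).mapDomain fun μ => -μ) y) ∧
      (∀ m m' : ℕ, (m' : ℤ) = m + D.t a * (k + D.hv) → ∃ y,
        D.IsImage k (Q a (D.t a * k) * Q a m) y ∧ D.IsImage k (Q a m') ((-1) ^ c a • y)) ∧
      ∀ j r m : ℕ, (m : ℤ) = j * (D.t a * (k + D.hv)) + r →
        (r ≤ D.t a * k → ∃ y, D.IsImage k (Q a m) y ∧ y ≠ 0 ∧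
          ∀ μ, 0 ≤ (-1) ^ (c a * j) * y μ) ∧
        (D.t a * k < r → (r : ℤ) < D.t a * (k + D.hv) → D.IsImage k (Q a m) 0) := by
  obtain ⟨n, h⟩ := D.exists_good
  obtain ⟨Q₀, h1, h2⟩ := h.exists_family
  obtain rfl := h2.unique hQ
  obtain ⟨J, ψ, hJ, hψ, hψ0, horb, hval, him⟩ := D.exists_J' h.pos
  have hpos : ∀ z, (∀ i, 0 < D.S.c i z) → 0 < z.2 → 0 < J ((n : ℤ) • z) := fun z hz hz' => by
    rw [hval z hz hz']
    exact lt_of_le_of_ne (Finsupp.single_nonneg.2 zero_le_one)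
      (Finsupp.single_ne_zero.2 one_ne_zero).symm
  have hw : ∀ m, D.WInv (Q₀ a m) := fun m => WInv.of_sc h.pos.ne' (h1 a m ▸ h.winv_Qf a m)
  obtain ⟨c, hc⟩ := D.exists_c
  obtain ⟨w, hd⟩ := ex_desc (D := D) (D.et a)
  have hp : D.S.Pos ((T (D.et a)).trans w) := ((D.cpt_T (D.cow_et a)).trans hd.cpt).pos hd.dom
  obtain ⟨Λ, hΛ⟩ : ∃ Λ, Λ = ((T (D.et a)).trans w) (0, 1) := ⟨_, rfl⟩
  have d1 : D.S.Dom Λ := hΛ ▸ hp.dom D.dom_L0
  have d2 : Λ.2 = 1 := hΛ ▸ hp.lev (0, 1)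
  have d3 : (ψ Λ).2 = 1 := (hψ.lev Λ).trans d2
  have d4 : D.S.Orb (D.et a, 1) Λ := by
    have := hd.orb' (D.et a, 1)
    rwa [show w (D.et a, 1) = Λ by simp [hΛ]] at this
  obtain ⟨o1, o2⟩ := orb_lat d4 rfl (D.cow_et a)
  obtain ⟨-, o3⟩ := orb_lat (horb Λ) d2 (o1.neg D)
  refine ⟨c, (ψ Λ).1, hc, ⟨(D.isDom_iff _).2 fun j => ?_, ?_⟩, ?_, fun k =>
    ⟨?_, fun m m' hm => ?_, fun m m' hm => ?_, fun j r m hm => ⟨fun hr => ?_, fun hr hr' => ?_⟩⟩⟩
  · simpa using hψ.dom d1 (some j)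
  · have := hψ.dom d1 none
    simp only [c_none, d3, cv_def] at this ⊢
    omega
  · have := sub_mem o3 o2
    rwa [show (ψ Λ).1 - -Λ.1 - (Λ.1 - D.et a) = (ψ Λ).1 - D.t a • D.ω a by
      rw [et, natCast_zsmul]; abel] at this
  · have h3 := him k _ (hw (D.t a * k))
    have h4 := h.image_mul hJ a k hd winv_one
    have e1 : ((D.rho, (k : ℤ) + D.hv) : M × ℤ) = D.S.rho + (k : ℤ) • (0, 1) := by
      simp [S_rho, add_comm]
    have e2 : w (T (D.et a) ((n : ℤ) • (D.rho, (k : ℤ) + D.hv))) =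
        (n : ℤ) • (D.S.rho + (k : ℤ) • Λ) := by
      rw [← AddEquiv.trans_apply, map_zsmul, e1, map_add, map_zsmul, hp.rho, hΛ]
    rw [mul_one, map_one, mul_one, ev_ex, e2, hval _ (fun i => ?_) ?_, map_add, map_zsmul,
      hψ.rho] at h4
    · rw [h1, h4] at h3
      simpa [S_rho] using h3
    · have := D.lev_pos k
      simp only [S_rho, Prod.snd_add, Prod.smul_snd, d2, smul_eq_mul]
      omega
    · have := d1 i
      rw [map_add, map_zsmul, D.S.co_rho, smul_eq_mul]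
      positivity
  · have h3 := him k _ ((hw (D.t a * k)).mul (hw m).io)
    have e1 : sc n (io (Q₀ a m)) = io (sc n (Q₀ a m)) := by
      rw [mp_mp, mp_mp]
      exact mp_congr (fun x => by simp) _
    rw [map_mul, map_mul (sc n), e1, h1, h1, ← h.image_sym hJ a hm, ← h1] at h3
    exact ⟨_, him k _ (hw m'), h3⟩
  · have h3 := him k _ ((hw (D.t a * k)).mul (hw m))
    have h4 := him k _ (hw m')
    rw [map_mul, map_mul (sc n), h1, h1] at h3
    rw [h1, h.image_period hc hJ a hm] at h4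
    exact ⟨_, h3, h4⟩
  · have h3 := h.image_sign hc a hr j m J hJ hpos hm
    rw [← h1] at h3
    refine ⟨_, him k _ (hw m), fun e => ?_, fun μ => h3.le μ⟩
    rw [e, smul_zero] at h3
    exact lt_irrefl _ h3
  · have h3 := him k _ (hw m)
    rwa [h1, h.image_gap a hr hr' j m J hJ hm] at h3

end SimpleDatum

end Pool.Agent.Lib.MP_4354a3_al
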