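import Pool.Agent.Lib.MP_4354a3_al.PE.Main
import Pool.Agent.Lib.MP_4354a3_al.QA5

/-!
# The characters of the modules form the family
-/

namespace Pool.Agent.Lib.MP_4354a3_al

namespace SimpleDatum

variable {ι M N : Type*} [Fintype ι] [DecidableEq ι] [AddCommGroup M] [AddCommGroup N]
  (D : SimpleDatum ι M N)

theorem exists_chars (q : ℂ) (hq0 : q ≠ 0) (hq : ∀ n : ℕ, 0 < n → q ^ n ≠ 1)
    (V : Type*) [AddCommGroup V] [Module ℂ V] : ∃ Q, D.IsKRFamily Q ∧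
      (∀ a m p, ∃ (n : ℕ) (x φ : ℤˣ → D.b.support → ℤ → Module.End ℂ (Fin n → ℂ)),
        D.IsKR q x φ a m p ∧ D.IsChar q φ (Q a m)) ∧
      ∀ a m p (x φ : ℤˣ → D.b.support → ℤ → Module.End ℂ V),
        D.IsKR q x φ a m p → D.IsChar q φ (Q a m) := by
  have key : ∀ i k c, ∃ Y, D.IsKRq i k c Y := fun i k c => by
    obtain ⟨n, x, φ, h⟩ := D.exists_KR q hq0 hq i k (c - (2 * k - 1) * D.di i)
    obtain ⟨v, hv⟩ := h.hw ⟨hq0, hq⟩
    obtain ⟨Y, hY, -⟩ := hv.exists_isKRq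
    exact ⟨Y, by simpa using hY⟩
  choose Xf hX using key
  refine ⟨_, SimpleDatum.isKRFamily hX, fun a m p => ?_, fun a m p x φ h => ?_⟩
  · obtain ⟨n, x, φ, h⟩ := D.exists_KR q hq0 hq a m p
    obtain ⟨v, hv⟩ := h.hw ⟨hq0, hq⟩
    obtain ⟨Y, hY, hχ⟩ := hv.exists_isKRq
    rw [hY.ch_eq (hX a m 0)] at hχ
    exact ⟨n, x, φ, h, hχ⟩
  · obtain ⟨v, hv⟩ := h.hw ⟨hq0, hq⟩
    obtain ⟨Y, hY, hχ⟩ := hv.exists_isKRq
    rwa [hY.ch_eq (hX a m 0)] at hχ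

lemma c_unique {c c' : D.b.support → ℕ} (h : 2 • D.rho = ∑ j, c j • D.P.root j)
    (h' : 2 • D.rho = ∑ j, c' j • D.P.root j) : c = c' :=
  funext fun a => (D.L_T a h).symm.trans (D.L_T a h')

end SimpleDatum

end Pool.Agent.Lib.MP_4354a3_al
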