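import Pool.Agent.Lib.MP_4354a3_al.PE.Ext
import Pool.Agent.Lib.MP_4354a3_al.Main

/-!
# Vanishing, periodicity and symmetry of the Verlinde images
-/

set_option linter.unusedSectionVars false

namespace Pool.Agent.Lib.MP_4354a3_al

open Set Function

namespace SimpleDatum

variable {ι M N : Type*} [Fintype ι] [DecidableEq ι] [AddCommGroup M] [AddCommGroup N]
  {D : SimpleDatum ι M N} {n : ℕ}

lemma Good.ext_inv (h : D.Good n) (a : D.b.support) (m : ℤ) {G : GA (M × ℤ)}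
    (hG : D.Ext n (m * D.du n a) (D.et a, 1) G) (j : D.b.support) :
    D.S.ms (D.S.simp (some j)) G = G := by
  obtain ⟨L, hL⟩ := hG.cong
  rw [← sub_eq_zero]
  refine D.Bq_cancel h.1 L (eq_zero_of_Id_large (D := D) h.1 (-m).toNat fun l hl => ?_)
  have ht := D.t_pos a
  have h1 : (l : ℤ) ≤ D.t a * l := le_mul_of_one_le_left (by positivity) ht
  obtain ⟨p, hp⟩ := Int.eq_ofNat_of_zero_le (show 0 ≤ m + D.t a * l by omega)
  have h2 : (D.t a : ℤ) * D.du n a = n := by exact_mod_cast h.t_du a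
  have a2 := hL l (p * D.du n a) (by push_cast; rw [← hp]; linear_combination (l : ℤ) * h2)
  have a3 := Id_ms (D.S.simp (some j)) a2
  have a1 : D.S.ms (D.S.simp (some j)) (D.S.g n (p * D.du n a) (D.et a, 1)) =
      D.S.g n (p * D.du n a) (D.et a, 1) := by
    rw [g_eq, map_mul, ms_em, h.winv (D.anti_et a) (D.box_et a) (h.mult a p), Sys.ms_ex]
    exact congrArg (fun x => ex x * _) (by simp [D.si_some j (0, _)])
  rw [map_mul, map_pow, ms_Bq, map_sub, map_mul, Sys.ms_ex, map_zsmul, neg_pow, a1] at a3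
  have a4 := ex_sub_mem (si_sub_mem (κ := (D.et a, 1)) rfl (D.cow_et a) (some j) ((n : ℤ) * l))
  have a5 := Ideal.mul_mem_left _ (ex (-(((n : ℤ) * l) • ((D.et a, 1) : M × ℤ))))
    (add_mem (sub_mem a2 (Ideal.mul_mem_left _ ((-1) ^ L) a3))
      (Ideal.mul_mem_left _ (D.Bq n ^ L * D.S.ms (D.S.simp (some j)) G) a4))
  have a6 : ((-1 : GA (M × ℤ)) ^ L) * (-1) ^ L = 1 := by rw [← mul_pow]; simp
  have a7 := ex_mul_neg (((n : ℤ) * l) • ((D.et a, 1) : M × ℤ))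
  refine (congrArg (· ∈ D.Id (n * l)) ?_).mpr a5
  linear_combination (-(D.Bq n ^ L * (D.S.ms (D.S.simp (some j)) G - G))) * a7 +
    (ex (-(((n : ℤ) * l) • ((D.et a, 1) : M × ℤ))) * D.Bq n ^ L *
      (D.S.g n (p * D.du n a) (D.et a, 1) - ex (((n : ℤ) * l) • D.S.si (some j) (D.et a, 1)) *
        D.S.ms (D.S.simp (some j)) G)) * a6

lemma desc_iso {z : M × ℤ} {w : M × ℤ ≃+ M × ℤ} (h : D.S.Desc z w) (x : M) :
    ∃ x', w (x, 0) = (x', 0) ∧ D.B x' x' = D.B x x := by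
  induction h generalizing x with
  | refl z h => exact ⟨x, rfl, rfl⟩
  | step z i w _ _ ih =>
    obtain ⟨x', h1, h2⟩ := ih (D.sr (D.S.simp i).1.1 x)
    exact ⟨x', by rw [AddEquiv.trans_apply, S_s_zero, h1], by rw [h2, B_sr]⟩

lemma ds_dom {η : M} (hc : D.Cow η) (T' : ℤ) {Λ : M × ℤ} (h1 : D.S.Orb (η, 1) Λ)
    (h2 : D.S.Dom Λ) : D.ds T' (T' • Λ) ≤ T' * T' * D.B D.rho D.rho := by
  obtain ⟨w, hw⟩ := ex_desc (D := D) η
  have hp : D.S.Pos ((T η).trans w) := ((D.cpt_T hc).trans hw.cpt).pos hw.dom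
  have e1 : ((T η).trans w) (0, 1) = w (η, 1) := by simp
  have e2 : Λ = w (η, 1) := Sys.Orb.eq_of_dom (by rw [h1.lev]; exact one_pos) h2
    (e1 ▸ hp.dom D.dom_L0) (h1.symm.trans (hw.orb' _))
  obtain ⟨x', e3, e4⟩ := desc_iso hw (-D.rho)
  have e5 : ((T η).trans w) (D.hv • ((0, 1) : M × ℤ) - D.S.rho) = (x', 0) := by
    rw [← e3]; simp [S_rho]
  rw [map_sub, map_zsmul, hp.rho, e1, ← e2] at e5
  have e6 : D.hv • (T' • Λ).1 - T' • D.rho = T' • x' := by
    have := congrArg Prod.fst e5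
    simp only [S_rho, Prod.fst_sub, Prod.smul_fst] at this ⊢
    rw [← this]; module
  rw [ds, e6]
  simp only [B, map_zsmul, map_neg, LinearMap.smul_apply, LinearMap.neg_apply, smul_eq_mul,
    neg_neg] at e4 ⊢
  rw [e4, mul_assoc]

lemma Good.ext_zero (h : D.Good n) (a : D.b.support) (m : ℤ) (h1 : -(n * D.hv) < m * D.du n a)
    (h2 : m * D.du n a < 0) {G : GA (M × ℤ)} (hG : D.Ext n (m * D.du n a) (D.et a, 1) G) :
    G = 0 := by
  have hi := h.ext_inv a m hG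
  have ht := D.t_pos a
  rcases hG.near with ⟨hd, -⟩ | h3
  · have := hd (some a)
    simp only [c_some, cv_et_self] at this
    omega
  have h4 := h3 h1 h2 _ fun Λ => ds_dom (D.cow_et a) _
  by_contra hne
  have h5 : G.coeff.support.Nonempty := by
    by_contra h5
    rw [Finset.not_nonempty_iff_eq_empty] at h5
    refine hne (Supp.eq_zero fun x hx => ?_)
    have := Finsupp.mem_support_iff.2 hx
    simp [h5] at this
  obtain ⟨x, hx, hmax⟩ := G.coeff.support.exists_max_image (fun x => D.B x.1 D.rho) h5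
  have h6 : D.IsDom x.1 := by
    rw [isDom_iff]
    intro j
    by_contra hj
    have a1 := coeff_mp (f := (D.S.si (some j)).toAddMonoidHom) (D.S.si (some j)).injective G x
    have a2 : mp (D.S.si (some j)).toAddMonoidHom G = G := hi j
    rw [a2] at a1
    have a3 := hmax (D.S.si (some j) x) (Finsupp.mem_support_iff.2
      (a1.trans_ne (Finsupp.mem_support_iff.1 hx)))
    have a4 := D.B_root j D.rho
    have a5 := D.B_root_pos j
    rw [si_some, sr_apply] at a3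
    rw [cv_rho] at a4
    simp only [B, map_sub, map_zsmul, LinearMap.sub_apply, LinearMap.smul_apply, smul_eq_mul]
      at a3 a4 a5
    nlinarith
  have h7 := D.B_dom_dom h6 ((D.isDom_iff _).2 fun j => (D.rho_sdom j).le)
  have h8 := h4 x (Finsupp.mem_support_iff.1 hx)
  have h9 := D.B_self_nonneg x.1
  have h10 := D.B_comm x.1 D.rho
  have hh := D.hv_pos
  generalize m * (D.du n a : ℤ) = T' at h2 h8
  simp only [ds, B, map_sub, map_zsmul, LinearMap.sub_apply, LinearMap.smul_apply, smul_eq_mul]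
    at h7 h8 h9 h10
  rw [← h10] at h8
  nlinarith [mul_nonneg (mul_pos hh (neg_pos.2 h2)).le h7, mul_nonneg (mul_pos hh hh).le h9]

lemma Ext.eq (hn : 0 < n) {τ : ℕ} {κ : M × ℤ} {G : GA (M × ℤ)} (hG : D.Ext n τ κ G) :
    G = D.S.g n τ κ := by
  obtain ⟨L, hL⟩ := hG.cong
  have h1 := hL 0 τ (by simp)
  rw [Nat.cast_zero, mul_zero, zero_smul, ex_zero, one_mul] at h1
  exact (sub_eq_zero.1 (D.Bq_cancel hn L (eq_zero_of_Id_zero h1))).symm

variable {V : Type*} [AddCommGroup V] [IsAddTorsionFree V] {J : M × ℤ → V}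

lemma ev_alt_mul {K : M → V} (hK : D.AltM K) {f : GA M} (hf : D.WInv f) (y : M) :
    ev K (D.alt y * f) = (Fintype.card D.weyl : ℤ) • ev K (ex y * f) := by
  rw [hf.alt_mul, map_ev, ← ev_zsmul_fun]
  simp only [hK.ev_alt]

lemma pr_em (f : GA M) : pr (em f) = f := by
  rw [mp_mp]; exact mp_eq_self (fun _ => rfl) f

lemma Ext.image (hJ : D.S.Alt J) {η : M} (hc : D.Cow η) {T' : ℤ} {G : GA (M × ℤ)}
    (hG : D.Ext n T' (η, 1) G) {l τ : ℕ} (hτ : (τ : ℤ) = T' + n * l)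
    (hF : D.WInv (D.F n τ η)) (hW : D.WInv (pr G)) :
    ev J (ex ((n : ℤ) • D.rho, (n : ℤ) * l) * em (D.F n τ η)) =
      ev (fun x => J (T η x)) (ex ((n : ℤ) • D.rho, (n : ℤ) * l) * em (pr G)) := by
  obtain ⟨L, hL⟩ := hG.cong
  have h1 := ev_Id hJ (Id_reduced L (hL l τ hτ))
  have h2 := ev_alt_mul (altM_of_alt hJ ((n : ℤ) * l)) hF ((n : ℤ) • D.rho)
  have h3 := ev_alt_mul (altM_of_alt (hJ.comp (D.cpt_T hc)) ((n : ℤ) * l)) hW ((n : ℤ) • D.rho)
  have h4 : ev (fun x => J (x, (n : ℤ) * l)) (ex (((n : ℤ) * l) • η) *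
      (D.alt ((n : ℤ) • D.rho) * pr G)) =
      ev (fun x => J (T η (x, (n : ℤ) * l))) (D.alt ((n : ℤ) • D.rho) * pr G) := by
    rw [ev_ex_mul]
    simp only [T_apply, add_comm]
  have h5 : pr (D.Bq n * (D.S.g n τ (η, 1) - ex (((n : ℤ) * l) • ((η, 1) : M × ℤ)) * G)) =
      (D.alt ((n : ℤ) • D.rho) * D.F n τ η - ex (((n : ℤ) * l) • η) *
        (D.alt ((n : ℤ) • D.rho) * pr G)) + (D.alt ((n : ℤ) • D.rho) * D.F n τ η -
          ex (((n : ℤ) * l) • η) * (D.alt ((n : ℤ) • D.rho) * pr G)) := by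
    rw [map_mul, Bq, map_add, pr_em, map_sub, map_mul, mp_ex, F]
    simp only [AddMonoidHom.coe_fst, Prod.smul_fst]
    ring
  rw [h5, map_add, map_sub, h2, h4, h3, ← smul_sub] at h1
  rw [ev_ex_em, ev_ex_em, ← sub_eq_zero]
  exact zsmul_cancel card_weyl_ne
    ((eq_zero_of_eq_neg (eq_neg_of_add_eq_zero_left h1)).trans (smul_zero _).symm)

lemma lev_nat (k : ℕ) : ∃ l : ℕ, (l : ℤ) = k + D.hv ∧
    (n : ℤ) • ((D.rho, (k : ℤ) + D.hv) : M × ℤ) = ((n : ℤ) • D.rho, (n : ℤ) * l) := by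
  obtain ⟨l, hl⟩ := Int.eq_ofNat_of_zero_le (D.lev_pos k).le
  exact ⟨l, hl.symm, by rw [hl]; rfl⟩

lemma Good.image_vanish (h : D.Good n) (hJ : D.S.Alt J) (a : D.b.support) {m k : ℕ}
    (h1 : D.t a * k < m) (h2 : (m : ℤ) < D.t a * (k + D.hv)) :
    ev J (ex ((n : ℤ) • (D.rho, (k : ℤ) + D.hv)) * em (D.Qf n a m)) = 0 := by
  obtain ⟨l, hl, e⟩ := lev_nat (D := D) (n := n) k
  have h3 : (D.t a : ℤ) * D.du n a = n := by exact_mod_cast h.t_du a
  have h4 : (0 : ℤ) < D.du n a := by exact_mod_cast h.du_pos a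
  have h5 : (D.t a : ℤ) * k < m := by exact_mod_cast h1
  obtain ⟨G, hG⟩ := ext_ex (D := D) h.1 ((m - D.t a * (k + D.hv)) * D.du n a)
    (κ := (D.et a, 1)) rfl (D.cow_et a) (h.2 _ (D.box_et a))
  have h6 := h.ext_zero a _ (by rw [← h3]; nlinarith) (by nlinarith) hG
  subst h6
  rw [e, Qf, hG.image hJ (D.cow_et a) (by push_cast; rw [hl]; linear_combination (k + D.hv) * h3)
    (h.winv_Qf a m) (fun α => by simp)]
  simp

lemma Good.image_per (h : D.Good n) (hJ : D.S.Alt J) (a : D.b.support) {m m' k : ℕ}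
    (hm : (m' : ℤ) = m + D.t a * (k + D.hv)) :
    ev J (ex ((n : ℤ) • (D.rho, (k : ℤ) + D.hv)) * em (D.Qf n a m')) =
      ev (fun x => J (T (D.et a) x))
        (ex ((n : ℤ) • (D.rho, (k : ℤ) + D.hv)) * em (D.Qf n a m)) := by
  obtain ⟨l, hl, e⟩ := lev_nat (D := D) (n := n) k
  have h3 : (D.t a : ℤ) * D.du n a = n := by exact_mod_cast h.t_du a
  obtain ⟨G, hG⟩ := ext_ex (D := D) h.1 ((m * D.du n a : ℕ) : ℤ)
    (κ := (D.et a, 1)) rfl (D.cow_et a) (h.2 _ (D.box_et a))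
  have h6 := hG.eq h.1
  subst h6
  rw [e]
  exact hG.image hJ (D.cow_et a) (by push_cast; rw [hl, hm]; linear_combination (k + D.hv) * h3)
    (h.winv_Qf a m') (h.winv_Qf a m)

lemma Good.image_mul (h : D.Good n) (hJ : D.S.Alt J) (a : D.b.support) (k : ℕ)
    {w : M × ℤ ≃+ M × ℤ} (hw : D.S.Desc (T (D.et a) D.S.rho) w) {f : GA M} (hf : D.WInv f) :
    ev J (ex ((n : ℤ) • (D.rho, (k : ℤ) + D.hv)) * em (D.Qf n a (D.t a * k) * f)) =
      ev (fun x => J (w (T (D.et a) x))) (ex ((n : ℤ) • (D.rho, (k : ℤ) + D.hv)) * em f) := by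
  have h1 : D.t a * k * D.du n a = n * k := by
    nth_rewrite 2 [← h.t_du a]; ring
  have h3 := h.back hJ (D.cow_et a) (D.anti_et a) hw hf 0
    (D.t a * k * D.du n a) (D.box_et a) (by rw [h1]; simp) (h.mult a _)
  have e1 : (((n : ℤ) • D.rho, n * D.hv + (0 : ℕ) + (D.t a * k * D.du n a : ℕ)) : M × ℤ) =
      (n : ℤ) • (D.rho, (k : ℤ) + D.hv) := by
    rw [h1]; ext <;> simp; ring
  have e2 : (n : ℤ) • D.S.rho + (0, ((D.t a * k * D.du n a : ℕ) : ℤ)) =
      (n : ℤ) • (D.rho, (k : ℤ) + D.hv) := by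
    rw [h1]; ext <;> simp [S_rho]; ring
  rw [e1, e2, Sys.g_zero, mul_one] at h3
  exact h3

lemma Good.dual (h : D.Good n) (hJ : D.S.Alt J) (a : D.b.support) (m τ : ℕ)
    (hd : (n : ℤ) ∣ (m * D.du n a : ℕ) + τ) :
    ev J (ex ((n : ℤ) • D.S.rho + (0, (τ : ℤ))) * D.S.g n (m * D.du n a) (-D.et a, 1)) =
      ev J (ex ((n : ℤ) • D.S.rho + (0, ((m * D.du n a : ℕ) : ℤ) + τ)) *
        em (io (D.Qf n a m))) := by
  obtain ⟨w, hw⟩ := Sys.exists_desc (S := D.S) (z := lin (AddEquiv.neg M) D.S.rho) D.hv_pos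
  have hp : D.S.Pos ((lin (AddEquiv.neg M)).trans w) := (D.cpt_neg.trans hw.cpt).pos hw.dom
  have hβ : ∀ β : D.AR, D.S.co β (lin (AddEquiv.neg M) D.S.rho) < 0 →
      β.1.2 = 0 ∧ D.pos β.1.1 := by
    rintro ⟨⟨α, j⟩, h1 | h1⟩ hβ
    · have := D.S.co_rho_pos ⟨(D.ng α, j), Or.inl h1⟩
      simp only [S_co, S_rho, lin_apply, AddEquiv.neg_apply, map_neg, cv_ng, t_ng] at this hβ
      omega
    · exact h1
  have h0 : w (0, 1) = (0, 1) := hw.fix fun β h1 => by simp [S_co, (hβ β h1).1]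
  have e0 : w (-D.et a, 1) = ((lin (AddEquiv.neg M)).trans w) (D.et a, 1) := rfl
  have h1 := hw.pairing h.pos hJ (m * D.du n a) τ (κ := (-D.et a, 1)) (ζ := (0, 1)) one_pos one_pos
    (fun β h1 => by
      have := (D.anti_et a).cv D (hβ β h1).2
      simp only [S_co, (hβ β h1).1, map_neg]
      omega)
    (fun β h1 => by simp [S_co, (hβ β h1).1]) (e0 ▸ hp.valid (h.2 _ (D.box_et a)))
    (h.2 _ D.box_zero) (by
      obtain ⟨u, hu⟩ := h.mult a m
      obtain ⟨K, hK⟩ := hd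
      refine ⟨(-u, K), ?_⟩
      ext
      · simp only [Prod.fst_add, Prod.smul_fst, smul_neg, smul_zero, add_zero]
        rw [← hu, natCast_zsmul]
      · simpa using hK)
  have e2 : mp ((lin (AddEquiv.neg M)).trans w).toAddMonoidHom (em (D.Qf n a m)) =
      em (io (D.Qf n a m)) := by
    rw [← hw.inv (h.winv_Qf a m).io.inv]
    simp only [mp_mp]
    exact mp_congr (fun x => by simp) _
  have e3 : ((lin (AddEquiv.neg M)).trans w).toAddMonoidHom (0, ((m * D.du n a : ℕ) : ℤ)) =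
      (0, ((m * D.du n a : ℕ) : ℤ)) := by
    have := congrArg (fun x => ((m * D.du n a : ℕ) : ℤ) • x) h0
    simp only [← map_zsmul] at this
    simpa using this
  rw [h0, e0, hp.g _ one_pos, D.g_eq n (m * D.du n a) (D.et a), map_mul (mp _), mp_ex, e3, ← Qf,
    e2, g_L0] at h1
  have e4 : ((0, ((m * D.du n a : ℕ) : ℤ) + τ) : M × ℤ) =
      (0, ((m * D.du n a : ℕ) : ℤ)) + (0, (τ : ℤ)) := by simp
  rw [e4, ex_add, ex_add, ex_add]
  refine Eq.trans (congrArg _ ?_) (h1.trans (congrArg _ ?_)) <;> ring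

lemma Good.image_sym (h : D.Good n) (hJ : D.S.Alt J) (a : D.b.support) {m m' k : ℕ}
    (hm : m + m' = D.t a * k) :
    ev J (ex ((n : ℤ) • (D.rho, (k : ℤ) + D.hv)) * em (D.Qf n a m')) =
      ev J (ex ((n : ℤ) • (D.rho, (k : ℤ) + D.hv)) *
        em (D.Qf n a (D.t a * k) * io (D.Qf n a m))) := by
  obtain ⟨w, hw⟩ := ex_desc (D := D) (D.et a)
  have h1 : ((m * D.du n a : ℕ) : ℤ) + (m' * D.du n a : ℕ) = n * k := by
    have h2 : m * D.du n a + m' * D.du n a = n * k := by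
      rw [← add_mul, hm]; nth_rewrite 2 [← h.t_du a]; ring
    exact_mod_cast h2
  have h3 := h.back hJ (D.cow_et a) (D.anti_et a) hw winv_one (m * D.du n a)
    (m' * D.du n a) (D.box_et a) ⟨k, h1⟩ (h.mult a _)
  have h4 := h.dual (hJ.comp ((D.cpt_T (D.cow_et a)).trans hw.cpt)) a m (m' * D.du n a) ⟨k, h1⟩
  have e1 : (((n : ℤ) • D.rho, n * D.hv + (m * D.du n a : ℕ) + (m' * D.du n a : ℕ)) : M × ℤ) =
      (n : ℤ) • (D.rho, (k : ℤ) + D.hv) := by
    rw [add_assoc, h1]; ext <;> simp; ring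
  have e2 : (n : ℤ) • D.S.rho + (0, (n : ℤ) * k) = (n : ℤ) • (D.rho, (k : ℤ) + D.hv) := by
    ext <;> simp [S_rho]; ring
  rw [e1, map_one, mul_one, mul_one] at h3
  rw [h1, e2] at h4
  rw [h.image_mul hJ a k hw (h.winv_Qf a m).io]
  exact h3.trans h4

end SimpleDatum

end Pool.Agent.Lib.MP_4354a3_al
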