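import Pool.Agent.Lib.MP_4354a3_al.PE.Per

/-!
# The sign of the periodicity and the boundary unit
-/

set_option linter.unusedSectionVars false

namespace Pool.Agent.Lib.MP_4354a3_al

open Set Function

namespace SimpleDatum

variable {ι M N : Type*} [Fintype ι] [DecidableEq ι] [AddCommGroup M] [AddCommGroup N]
  (D : SimpleDatum ι M N) {n : ℕ}

open Classical in
lemma sum_pos : ∑ α with D.pos α, D.r α = 2 • D.rho := by
  refine D.ext_simple fun j => ?_
  have hj : (j : ι) ∈ Finset.univ.filter D.pos := by simpa using D.pos_simple j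
  rw [map_sum, ← Finset.add_sum_erase _ _ hj, map_nsmul, cv_rho, cv_r_self,
    Finset.sum_involution (fun α _ => D.pm j α) (fun α _ => ?_) (fun α _ h e => ?_)
      (fun α hα => ?_) (fun α _ => D.pm_pm j α)]
  · simp
  · rw [r_pm, sr_apply, map_sub, map_zsmul, cv_r_self, smul_eq_mul]; ring
  · have h1 := congrArg (fun β => D.cv j (D.r β)) e
    simp only [r_pm, sr_apply, map_sub, map_zsmul, cv_r_self, smul_eq_mul] at h1
    omega
  · simp only [Finset.mem_erase, Finset.mem_filter, Finset.mem_univ, true_and] at hα ⊢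
    refine ⟨fun e => ?_, D.pos_pm hα.2 j hα.1⟩
    have h1 : α = D.ng j := by rw [← D.pm_pm j α, e]; rfl
    exact D.pos_ng_iff.1 (h1 ▸ hα.2) (D.pos_simple j)

lemma exists_c : ∃ c : D.b.support → ℕ, 2 • D.rho = ∑ j, c j • D.P.root j := by
  classical
  have h : 2 • D.rho ∈ D.Qp := by
    rw [← sum_pos]
    exact AddSubmonoid.sum_mem _ fun α hα => D.pos_iff.1 (Finset.mem_filter.1 hα).2
  obtain ⟨f, hf, e⟩ := D.mem_Qp_iff.1 h
  refine ⟨fun j => (f j).toNat, e.trans (Finset.sum_congr rfl fun j _ => ?_)⟩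
  rw [← natCast_zsmul, Int.toNat_of_nonneg (hf j)]

lemma L_T (a : D.b.support) {c : D.b.support → ℕ} (hc : 2 • D.rho = ∑ j, c j • D.P.root j) :
    D.S.L (T (D.et a) D.S.rho) = c a := by
  classical
  choose q hq using D.cow_et a
  have hh := D.hv_pos
  have h0 : ∀ α, D.pos α → q α ≤ 0 := fun α hα => by
    have h1 := (D.anti_et a).cv D hα
    have h2 := D.t_pos α
    rw [hq] at h1
    by_contra h3
    nlinarith
  have h1 : Subtype.val '' D.S.inv (T (D.et a) D.S.rho) =
      ((((Finset.univ.filter D.pos).sigma fun α => Finset.Ico (0 : ℤ) (-q α)).map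
        (Equiv.sigmaEquivProd ι ℤ).toEmbedding : Finset (ι × ℤ)) : Set (ι × ℤ)) := by
    ext ⟨α, j⟩
    have ht := D.t_pos α
    have e : ∀ h : D.PosR (α, j), D.S.co ⟨(α, j), h⟩ (T (D.et a) D.S.rho) =
        D.aco (α, q α + j) D.S.rho := fun h => by
      simp only [S_co, S_rho, T_apply, map_add, map_zsmul, smul_eq_mul, hq, aco_apply]; ring
    have e2 : D.aco (α, q α + j) D.S.rho < 0 ↔ ¬ D.PosR (α, q α + j) := by
      refine ⟨fun h h' => ?_, fun h => ?_⟩
      · exact lt_asymm h (D.S.co_rho_pos ⟨_, h'⟩)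
      · have := D.S.co_rho_pos ⟨_, (D.posR_or _).resolve_left h⟩
        simp only [S_co, aco_apply, cv_ng, t_ng] at this ⊢
        linarith
    simp only [Finset.coe_map, Equiv.coe_toEmbedding, mem_image_equiv, Finset.mem_coe,
      Finset.mem_sigma, Finset.mem_filter, Finset.mem_univ, true_and, Finset.mem_Ico,
      Equiv.sigmaEquivProd_symm_apply]
    constructor
    · rintro ⟨⟨_, h⟩, h2, rfl⟩
      have h3 := e2.1 ((e h).symm.trans_lt h2)
      simp only [PosR, not_or, not_and, not_lt] at h h3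
      have hp : D.pos α := by
        by_contra hp
        have h4 := (D.anti_et a).cv' D hp
        have h5 : 0 ≤ q α := by
          rw [hq] at h4
          by_contra h5
          nlinarith
        have h6 : 0 < j := by tauto
        omega
      have h4 : q α + j ≠ 0 := fun e => h3.2 e hp
      refine ⟨hp, ?_, by omega⟩
      rcases h with h | h <;> omega
    · rintro ⟨hp, h2, h3⟩
      have h : D.PosR (α, j) := by
        rcases h2.eq_or_lt with h4 | h4
        · exact Or.inr ⟨h4.symm, hp⟩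
        · exact Or.inl h4
      refine ⟨⟨_, h⟩, (e h).trans_lt (e2.2 ?_), rfl⟩
      rintro (h4 | ⟨h4, -⟩) <;> simp only at h4 <;> omega
  have h2 : (D.S.L (T (D.et a) D.S.rho) : ℤ) = ∑ α with D.pos α, -q α := by
    rw [Sys.L, ← Set.ncard_image_of_injective _ Subtype.val_injective, h1, Set.ncard_coe_finset,
      Finset.card_map, Finset.card_sigma, Nat.cast_sum]
    refine Finset.sum_congr rfl fun α hα => ?_
    have := h0 α (Finset.mem_filter.1 hα).2
    rw [Int.card_Ico]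
    omega
  have h3 : ∀ α, D.B (D.r D.θ) (D.r D.θ) * q α = 2 * D.B (D.r α) (D.et a) := fun α => by
    rw [← D.B_root, hq, ← mul_assoc, mul_comm _ (D.t α : ℤ), D.t_spec]
  have h4 : ∑ α with D.pos α, D.B (D.r α) (D.et a) = c a * D.B (D.r a) (D.et a) := by
    have h5 := congrArg (fun x => D.B x (D.et a)) (D.sum_pos.trans hc)
    simp only [B, map_sum, LinearMap.sum_apply, map_nsmul, LinearMap.smul_apply, nsmul_eq_mul]
      at h5
    refine h5.trans (Finset.sum_eq_single a (fun b _ hb => ?_) (by simp))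
    have h6 := D.B_root b (D.et a)
    rw [cv_et, if_neg hb] at h6
    rw [show D.P.RootForm (D.P.root b) (D.et a) = 0 by simpa using h6, mul_zero]
  have h5 : q a = -1 := by
    have h6 := hq a
    have h7 := D.t_pos a
    rw [cv_et_self] at h6
    exact mul_left_cancel₀ h7.ne' (by linarith)
  have h6 := h3 a
  have h7 : D.B (D.r D.θ) (D.r D.θ) * (D.S.L (T (D.et a) D.S.rho) : ℤ) =
      D.B (D.r D.θ) (D.r D.θ) * c a := by
    rw [h2, Finset.mul_sum]
    simp only [mul_neg, h3, Finset.sum_neg_distrib, ← Finset.mul_sum, h4]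
    rw [h5] at h6
    linear_combination (c a : ℤ) * h6
  exact_mod_cast mul_left_cancel₀ (D.B_root_pos D.θ).ne' h7

variable {D}

lemma orb_lat {κ κ' : M × ℤ} (h : D.S.Orb κ κ') (h1 : κ.2 = 1) (h2 : D.Cow κ.1) :
    D.Cow κ'.1 ∧ κ'.1 - κ.1 ∈ AddSubgroup.closure (range fun α => D.t α • D.P.root α) := by
  induction h with
  | refl => exact ⟨h2, by simp⟩
  | @tail y _ hy hz ih =>
    obtain ⟨i, rfl⟩ := hz
    obtain ⟨e, he⟩ := ih.1 (D.S.simp i).1.1
    have h3 : y.2 = 1 := (Sys.Orb.lev hy).trans h1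
    have h4 : (D.S.si i y).1 = y.1 + (-(e + (D.S.simp i).1.2)) •
        ((D.t (D.S.simp i).1.1 : ℤ) • D.r (D.S.simp i).1.1) := by
      rw [S_s, S_co, he, h3]; module
    rw [h4]
    refine ⟨ih.1.add D ((D.cow_root _).zsmul D _), ?_⟩
    rw [add_sub_right_comm, natCast_zsmul]
    exact add_mem ih.2 (zsmul_mem (AddSubgroup.subset_closure (mem_range_self _)) _)

section images

variable {V : Type*} [AddCommGroup V] [IsAddTorsionFree V] {J : M × ℤ → V}
  {c : D.b.support → ℕ}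

lemma ev_T (hc : 2 • D.rho = ∑ j, c j • D.P.root j) (hJ : D.S.Alt J) (a : D.b.support)
    {w : M × ℤ ≃+ M × ℤ} (hw : D.S.Desc (T (D.et a) D.S.rho) w) (f : GA (M × ℤ)) :
    ev (fun x => J (T (D.et a) x)) f =
      (-1 : ℤ) ^ c a • ev (fun x => J (w (T (D.et a) x))) f := by
  simp only [hw.sign hJ D.hv_pos, D.L_T a hc]
  rw [ev_zsmul_fun, smul_smul, ← mul_pow]
  simp

lemma Good.image_period (h : D.Good n) (hc : 2 • D.rho = ∑ j, c j • D.P.root j)
    (hJ : D.S.Alt J) (a : D.b.support) {m m' k : ℕ} (hm : (m' : ℤ) = m + D.t a * (k + D.hv)) :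
    ev J (ex ((n : ℤ) • (D.rho, (k : ℤ) + D.hv)) * em (D.Qf n a m')) = (-1 : ℤ) ^ c a •
      ev J (ex ((n : ℤ) • (D.rho, (k : ℤ) + D.hv)) *
        em (D.Qf n a (D.t a * k) * D.Qf n a m)) := by
  obtain ⟨w, hw⟩ := ex_desc (D := D) (D.et a)
  rw [h.image_per hJ a hm, h.image_mul hJ a k hw (h.winv_Qf a m), ev_T hc hJ a hw]

lemma per_split (a : D.b.support) {j r m k : ℕ}
    (hm : (m : ℤ) = (j + 1 : ℕ) * (D.t a * (k + D.hv)) + r) :
    ∃ m' : ℕ, (m' : ℤ) = j * (D.t a * (k + D.hv)) + r ∧ (m : ℤ) = m' + D.t a * (k + D.hv) := by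
  have h1 := D.lev_pos k
  have h2 := D.t_pos a
  obtain ⟨m', hm'⟩ := Int.eq_ofNat_of_zero_le
    (show (0 : ℤ) ≤ j * (D.t a * (k + D.hv)) + r by positivity)
  exact ⟨m', hm'.symm, by rw [hm, ← hm']; push_cast; ring⟩

lemma Good.image_gap (h : D.Good n) (a : D.b.support) {r k : ℕ} (h1 : D.t a * k < r)
    (h2 : (r : ℤ) < D.t a * (k + D.hv)) (j : ℕ) : ∀ (m : ℕ) (J : M × ℤ → V), D.S.Alt J →
      (m : ℤ) = j * (D.t a * (k + D.hv)) + r →
      ev J (ex ((n : ℤ) • (D.rho, (k : ℤ) + D.hv)) * em (D.Qf n a m)) = 0 := by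
  induction j with
  | zero =>
    intro m J hJ hm
    obtain rfl : m = r := by simpa using hm
    exact h.image_vanish hJ a h1 h2
  | succ j ih =>
    intro m J hJ hm
    obtain ⟨m', e1, e2⟩ := per_split a hm
    rw [h.image_per hJ a e2, ih m' _ (hJ.comp (D.cpt_T (D.cow_et a))) e1]

lemma Good.image_sign [PartialOrder V] [IsOrderedAddMonoid V] (h : D.Good n)
    (hc : 2 • D.rho = ∑ j, c j • D.P.root j) (a : D.b.support) {r k : ℕ} (h1 : r ≤ D.t a * k)
    (j : ℕ) : ∀ (m : ℕ) (J : M × ℤ → V), D.S.Alt J →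
      (∀ z, (∀ i, 0 < D.S.c i z) → 0 < z.2 → 0 < J ((n : ℤ) • z)) →
      (m : ℤ) = j * (D.t a * (k + D.hv)) + r →
      0 < (-1 : ℤ) ^ (c a * j) •
        ev J (ex ((n : ℤ) • (D.rho, (k : ℤ) + D.hv)) * em (D.Qf n a m)) := by
  induction j with
  | zero =>
    intro m J hJ hpos hm
    obtain rfl : m = r := by simpa using hm
    simpa using h.image_pos hJ hpos a h1
  | succ j ih =>
    intro m J hJ hpos hm
    obtain ⟨m', e1, e2⟩ := per_split a hm
    obtain ⟨w, hw⟩ := ex_desc (D := D) (D.et a)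
    have hp : D.S.Pos ((T (D.et a)).trans w) := ((D.cpt_T (D.cow_et a)).trans hw.cpt).pos hw.dom
    have h2 := ih m' _ (hJ.comp hp.cpt) (fun z hz hz' => by
      simp only [map_zsmul]
      exact hpos _ (hp.sdom hz) ((hp.lev z).symm ▸ hz' : 0 < D.S.lev _)) e1
    rw [h.image_per hJ a e2, ev_T hc hJ a hw, smul_smul, mul_add_one, pow_add, mul_assoc,
      ← mul_pow]
    simpa using h2

end images

variable (D) in
/-- A scaled and dualised version of `π_k`, with its values on the alcove. -/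
theorem exists_J' {n : ℤ} (hn : 0 < n) : ∃ (J : M × ℤ → (M →₀ ℤ)) (ψ : M × ℤ ≃+ M × ℤ),
    D.S.Alt J ∧ D.S.Pos ψ ∧ ψ (0, 1) = (0, 1) ∧ (∀ y, D.S.Orb (-y.1, y.2) (ψ y)) ∧
    (∀ z, (∀ i, 0 < D.S.c i z) → 0 < z.2 → J (n • z) = Finsupp.single ((ψ z).1 - D.rho) 1) ∧
    ∀ (k : ℕ) (f : GA M), D.WInv f →
      D.IsImage k (io f) (ev J (ex (n • (D.rho, (k : ℤ) + D.hv)) * em (sc n f))) := by
  classical
  have := D.torsionFree
  let J1 : M × ℤ → (M →₀ ℤ) := fun z =>
    if h : ∃ z', z = n • z' then D.down (D.S.J0 h.choose) else 0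
  have hJ1 : ∀ z, J1 (n • z) = D.down (D.S.J0 z) := by
    intro z
    have h : ∃ z', n • z = n • z' := ⟨z, rfl⟩
    simp only [J1]
    rw [dif_pos h, ← smul_right_injective (M × ℤ) hn.ne' h.choose_spec]
  have alt1 : D.S.Alt J1 := by
    intro β z
    by_cases h : ∃ z', z = n • z'
    · obtain ⟨z', rfl⟩ := h
      rw [map_zsmul, hJ1, hJ1, Sys.alt_J0, map_neg]
    · have h' : ¬ ∃ z', D.S.s β z = n • z' := by
        rintro ⟨z', h'⟩
        exact h ⟨D.S.s β z', by rw [← map_zsmul, ← h', Sys.s_s]⟩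
      simp only [J1]
      rw [dif_neg h, dif_neg h', neg_zero]
  obtain ⟨w, hw⟩ := Sys.exists_desc (S := D.S) (z := lin (AddEquiv.neg M) D.S.rho) D.hv_pos
  have hp : D.S.Pos ((lin (AddEquiv.neg M)).trans w) := (D.cpt_neg.trans hw.cpt).pos hw.dom
  set φ := (lin (AddEquiv.neg M)).trans w with hφ
  have h0 : φ (0, 1) = (0, 1) := by
    have : lin (AddEquiv.neg M) (0, 1) = (0, 1) := by simp
    rw [hφ, AddEquiv.trans_apply, this]
    refine hw.fix fun β hβ => ?_
    obtain ⟨⟨α, m⟩, h⟩ := β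
    rcases h with h | h
    · have := D.S.co_rho_pos ⟨(D.ng α, m), Or.inl h⟩
      simp only [S_co, S_rho, lin_apply, AddEquiv.neg_apply, map_neg, cv_ng, t_ng] at this hβ
      omega
    · simp only at h
      simp [S_co, h.1]
  have h1 : ∀ k : ℕ, φ (D.rho, k + D.hv) = (D.rho, k + D.hv) := by
    intro k
    have : ((D.rho, k + D.hv) : M × ℤ) = D.S.rho + (k : ℤ) • (0, 1) := by
      simp [S_rho, add_comm]
    rw [this, map_add, map_zsmul, h0, hp.rho]
  refine ⟨fun z => J1 (φ z), φ, alt1.comp hp.cpt, hp, h0, fun y => hw.orb' _, fun z hz hz' => ?_,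
    fun k f hf => ?_⟩
  · simp only
    rw [map_zsmul, hJ1, Sys.J0_sdom (by rwa [hp.lev]) (hp.sdom hz), down_ex]
  · obtain ⟨c, hc⟩ := hf.io.exists_class
    refine ⟨c, hc, ?_⟩
    simp only [piK_eq]
    rw [hc.image (altM_of_alt (Sys.alt_J0.map D.down) (k + D.hv)) hf.io]
    have e1 : ev (fun z => J1 (φ z)) (ex (n • (D.rho, (k : ℤ) + D.hv)) * em (sc n f)) =
        ev J1 (mp φ.toAddMonoidHom (ex (n • (D.rho, (k : ℤ) + D.hv)) * em (sc n f))) :=
      (ev_mp J1 φ.toAddMonoidHom _).symm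
    have e2 : mp φ.toAddMonoidHom (em (sc n f)) = em (sc n (io f)) := by
      rw [← hw.inv (hf.io.sc n).inv]
      simp only [mp_mp]
      exact mp_congr (fun x => by simp [hφ]) _
    have e3 : φ.toAddMonoidHom (n • (D.rho, (k : ℤ) + D.hv)) = n • (D.rho, (k : ℤ) + D.hv) := by
      rw [map_zsmul]; exact congrArg _ (h1 k)
    rw [e1, map_mul, e2, mp_ex, e3, ev_ex_mul, ev_ex_mul, ev_mp, ev_mp]
    congr 2
    ext1 x
    rw [← hJ1]
    congr 1
    simp

end SimpleDatum

end Pool.Agent.Lib.MP_4354a3_al
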